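import Mathlib

/-!
# MP_c86b5e: levels of the Markoff-type surface that are exhausted by exceptional orbits
-/

namespace Pool.Agent.Results.MP_c86b5e_nt.ExhaustedLevels

/-- Triples over the field with `p` elements. -/
abbrev V (p : ℕ) := ZMod p × ZMod p × ZMod p

/-- The triples of level `k`: `x² + y² + z² - xyz - 2 = k`. -/
def M (p : ℕ) (k : ZMod p) : Set (V p) :=
  {v | v.1 ^ 2 + v.2.1 ^ 2 + v.2.2 ^ 2 - v.1 * v.2.1 * v.2.2 - 2 = k}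

/-- Exchange of the first two coordinates. -/
def s12 (p : ℕ) : Equiv.Perm (V p) where
  toFun v := (v.2.1, v.1, v.2.2)
  invFun v := (v.2.1, v.1, v.2.2)
  left_inv _ := rfl
  right_inv _ := rfl

/-- Exchange of the last two coordinates. -/
def s23 (p : ℕ) : Equiv.Perm (V p) where
  toFun v := (v.1, v.2.2, v.2.1)
  invFun v := (v.1, v.2.2, v.2.1)
  left_inv _ := rfl
  right_inv _ := rfl

/-- The Vieta involution `(x, y, z) ↦ (x, y, xy - z)`. -/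
def vieta (p : ℕ) : Equiv.Perm (V p) where
  toFun v := (v.1, v.2.1, v.1 * v.2.1 - v.2.2)
  invFun v := (v.1, v.2.1, v.1 * v.2.1 - v.2.2)
  left_inv v := by simp
  right_inv v := by simp

/-- The group generated by the coordinate permutations and the Vieta involution. -/
def Gam (p : ℕ) : Subgroup (Equiv.Perm (V p)) := Subgroup.closure {s12 p, s23 p, vieta p}

/-- The exceptional triples: `(t,0,0)`, `(1,1,0)`, `(√2,1,0)`, `(φ₊,φ₋,0)`, `(φ₊,1,0)`,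
`(φ₋,1,0)` with `φ± = (1 ± √5)/2`, whenever the square roots exist. -/
def Exc (p : ℕ) (v : V p) : Prop :=
  (∃ t, v = (t, 0, 0)) ∨ v = (1, 1, 0) ∨ (∃ r, r ^ 2 = 2 ∧ v = (r, 1, 0)) ∨
    ∃ r a b, r ^ 2 = 5 ∧ 2 * a = 1 + r ∧ 2 * b = 1 - r ∧
      (v = (a, b, 0) ∨ v = (a, 1, 0) ∨ v = (b, 1, 0))

/-- The union of the exceptional orbits, intersected with level `k` (the group preserves
levels, so this is the union of the exceptional orbits contained in `M p k`). -/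
def E (p : ℕ) (k : ZMod p) : Set (V p) :=
  {v | v ∈ M p k ∧ ∃ e, Exc p e ∧ v ∈ MulAction.orbit (Gam p) e}

lemma orbit_of_gen {p : ℕ} {g : Equiv.Perm (V p)} (hg : g ∈ Gam p) {v e : V p}
    (h : g v ∈ MulAction.orbit (Gam p) e) : v ∈ MulAction.orbit (Gam p) e := by
  obtain ⟨⟨f, hf⟩, hfe⟩ := h
  have hfe' : f e = g v := hfe
  refine ⟨⟨g⁻¹ * f, (Gam p).mul_mem ((Gam p).inv_mem hg) hf⟩, ?_⟩
  change (g⁻¹ * f) e = v
  rw [Equiv.Perm.mul_apply, hfe']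
  exact g.symm_apply_apply v

/-- Membership in the union of the exceptional orbits. -/
def InE {p : ℕ} (v : V p) : Prop := ∃ e, Exc p e ∧ v ∈ MulAction.orbit (Gam p) e

lemma inE_of_gen {p : ℕ} {g : Equiv.Perm (V p)} (hg : g ∈ Gam p) {v : V p} (h : InE (g v)) :
    InE v := by
  obtain ⟨e, he, h⟩ := h
  exact ⟨e, he, orbit_of_gen hg h⟩

/-- a sufficient test for being exceptional -/
def excB {p : ℕ} (v : V p) : Bool :=
  decide (v.2.1 = 0 ∧ v.2.2 = 0) || decide (v = (1, 1, 0)) ||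
    decide (v.1 ^ 2 = 2 ∧ v.2.1 = 1 ∧ v.2.2 = 0) ||
    decide (v.2.2 = 0 ∧ (2 * v.1 - 1) ^ 2 = 5 ∧ (v.2.1 = 1 ∨ v.2.1 = 1 - v.1))

lemma exc_of_excB {p : ℕ} {v : V p} (h : excB v = true) : Exc p v := by
  unfold excB at h
  simp only [Bool.or_eq_true, decide_eq_true_eq] at h
  obtain ⟨x, y, z⟩ := v
  simp only at h
  rcases h with ((⟨h1, h2⟩ | h) | ⟨h1, h2, h3⟩) | ⟨h1, h2, h3 | h3⟩
  · left; exact ⟨x, by rw [h1, h2]⟩
  · right; left; exact h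
  · right; right; left; exact ⟨x, h1, by rw [h2, h3]⟩
  · right; right; right
    refine ⟨2 * x - 1, x, 1 - x, h2, by ring, by ring, Or.inr (Or.inl ?_)⟩
    rw [h1, h3]
  · right; right; right
    refine ⟨2 * x - 1, x, 1 - x, h2, by ring, by ring, Or.inl ?_⟩
    rw [h1, h3]

/-- Certificate check. -/
def check {p : ℕ} : List (V p) → List (V p) → Bool
  | _, [] => true
  | seen, v :: rest =>
    (excB v || decide (s12 p v ∈ seen) || decide (s23 p v ∈ seen) || decide (vieta p v ∈ seen))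
      && check (v :: seen) rest

lemma check_sound {p : ℕ} : ∀ (L seen : List (V p)), (∀ v ∈ seen, InE v) →
    check seen L = true → ∀ v ∈ L, InE v := by
  intro L
  induction L with
  | nil => intro _ _ _ v hv; simp at hv
  | cons w rest ih =>
    intro seen hseen hc
    unfold check at hc
    rw [Bool.and_eq_true] at hc
    obtain ⟨h1, h2⟩ := hc
    have hw : InE w := by
      simp only [Bool.or_eq_true, decide_eq_true_eq] at h1
      rcases h1 with ((h | h) | h) | h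
      · exact ⟨w, exc_of_excB h, MulAction.mem_orbit_self w⟩
      · exact inE_of_gen (Subgroup.subset_closure (by simp)) (hseen _ h)
      · exact inE_of_gen (Subgroup.subset_closure (by simp)) (hseen _ h)
      · exact inE_of_gen (Subgroup.subset_closure (by simp)) (hseen _ h)
    intro v hv
    rcases List.mem_cons.mp hv with rfl | hv
    · exact hw
    · refine ih (w :: seen) ?_ h2 v hv
      intro u hu
      rcases List.mem_cons.mp hu with rfl | hu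
      · exact hw
      · exact hseen u hu

lemma empty_of_cert {p : ℕ} {k : ZMod p} (L : List (V p)) (hc : check [] L = true)
    (hall : ∀ x y z : ZMod p, x ^ 2 + y ^ 2 + z ^ 2 - x * y * z - 2 = k → (x, y, z) ∈ L) :
    M p k \ E p k = ∅ := by
  ext ⟨x, y, z⟩
  simp only [Set.mem_sdiff, Set.mem_empty_iff_false, iff_false, not_and, not_not]
  intro h
  exact ⟨h, check_sound L [] (by simp) hc _ (hall x y z h)⟩

def L3_0 : List (V 3) :=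
  [(1, 1, 0), (1, 0, 1), (1, 1, 1), (0, 1, 1), (1, 0, 2), (0, 1, 2), (1, 2, 0), (0, 2, 1), (2,
    1, 0), (1, 2, 2), (2, 0, 1), (0, 2, 2), (2, 1, 2), (2, 0, 2), (2, 2, 1), (2, 2, 0)]

lemma empty3_0 : M 3 0 \ E 3 0 = ∅ :=
  empty_of_cert L3_0 (by decide +kernel) (by decide +kernel)

def L5_0 : List (V 5) :=
  [(1, 1, 0), (1, 0, 1), (1, 1, 1), (0, 1, 1), (1, 0, 4), (0, 1, 4), (1, 4, 0), (0, 4, 1), (4,
    1, 0), (1, 4, 4), (4, 0, 1), (0, 4, 4), (4, 1, 4), (4, 0, 4), (4, 4, 1), (4, 4, 0)]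

lemma empty5_0 : M 5 0 \ E 5 0 = ∅ :=
  empty_of_cert L5_0 (by decide +kernel) (by decide +kernel)

def L5_1 : List (V 5) :=
  [(3, 3, 0), (3, 0, 3), (3, 3, 4), (0, 3, 3), (3, 0, 2), (3, 4, 3), (0, 3, 2), (3, 2, 0), (4,
    3, 3), (3, 4, 4), (0, 2, 3), (2, 3, 0), (3, 2, 1), (4, 3, 4), (2, 0, 3), (0, 2, 2), (2, 3,
    1), (3, 1, 2), (4, 4, 3), (2, 0, 2), (2, 1, 3), (1, 3, 2), (3, 1, 1), (2, 2, 0), (1, 2,
    3), (2, 1, 4), (1, 3, 1), (2, 2, 4), (1, 2, 4), (2, 4, 1), (1, 1, 3), (2, 4, 2), (1, 4,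
    2), (4, 2, 1), (4, 2, 2), (4, 1, 2)]

lemma empty5_1 : M 5 1 \ E 5 1 = ∅ :=
  empty_of_cert L5_1 (by decide +kernel) (by decide +kernel)

def L5_4 : List (V 5) :=
  [(1, 0, 0), (4, 0, 0), (0, 1, 0), (0, 4, 0), (0, 0, 1), (0, 0, 4)]

lemma empty5_4 : M 5 4 \ E 5 4 = ∅ :=
  empty_of_cert L5_4 (by decide +kernel) (by decide +kernel)

def L7_0 : List (V 7) :=
  [(3, 0, 0), (4, 0, 0), (1, 1, 0), (0, 3, 0), (0, 4, 0), (1, 0, 1), (1, 1, 1), (0, 0, 3), (0,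
    0, 4), (0, 1, 1), (1, 0, 6), (0, 1, 6), (1, 6, 0), (0, 6, 1), (6, 1, 0), (1, 6, 6), (6, 0,
    1), (0, 6, 6), (6, 1, 6), (6, 0, 6), (6, 6, 1), (6, 6, 0)]

lemma empty7_0 : M 7 0 \ E 7 0 = ∅ :=
  empty_of_cert L7_0 (by decide +kernel) (by decide +kernel)

def L7_1 : List (V 7) :=
  [(3, 1, 0), (4, 1, 0), (1, 3, 0), (3, 0, 1), (3, 1, 3), (1, 4, 0), (4, 0, 1), (4, 1, 4), (1,
    0, 3), (1, 3, 3), (0, 3, 1), (3, 0, 6), (3, 3, 1), (1, 0, 4), (1, 4, 4), (0, 4, 1), (4, 0,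
    6), (4, 4, 1), (0, 1, 3), (0, 3, 6), (3, 6, 0), (0, 1, 4), (0, 4, 6), (4, 6, 0), (0, 6,
    3), (6, 3, 0), (3, 6, 4), (0, 6, 4), (6, 4, 0), (4, 6, 3), (6, 0, 3), (6, 3, 4), (3, 4,
    6), (6, 0, 4), (6, 4, 3), (4, 3, 6)]

lemma empty7_1 : M 7 1 \ E 7 1 = ∅ :=
  empty_of_cert L7_1 (by decide +kernel) (by decide +kernel)

def L11_1 : List (V 11) :=
  [(5, 0, 0), (6, 0, 0), (8, 4, 0), (4, 8, 0), (0, 5, 0), (0, 6, 0), (8, 0, 4), (8, 4, 10),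
    (4, 0, 8), (4, 8, 10), (0, 0, 5), (0, 0, 6), (0, 8, 4), (8, 0, 7), (8, 10, 4), (0, 4, 8),
    (4, 0, 3), (4, 10, 8), (0, 8, 7), (8, 7, 0), (10, 8, 4), (8, 10, 10), (0, 4, 3), (4, 3,
    0), (10, 4, 8), (4, 10, 10), (0, 7, 8), (7, 8, 0), (8, 7, 1), (10, 8, 10), (0, 3, 4), (3,
    4, 0), (4, 3, 1), (10, 4, 10), (7, 0, 8), (0, 7, 3), (7, 8, 1), (8, 1, 7), (10, 10, 8),
    (3, 0, 4), (0, 3, 7), (3, 4, 1), (4, 1, 3), (10, 10, 4), (7, 0, 3), (7, 1, 8), (1, 8, 7),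
    (8, 1, 1), (3, 0, 7), (3, 1, 4), (1, 4, 3), (4, 1, 1), (7, 3, 0), (1, 7, 8), (7, 1, 10),
    (1, 8, 1), (3, 7, 0), (1, 3, 4), (3, 1, 10), (1, 4, 1), (7, 3, 10), (1, 7, 10), (7, 10,
    1), (1, 1, 8), (3, 7, 10), (1, 3, 10), (3, 10, 1), (1, 1, 4), (7, 10, 3), (1, 10, 7), (10,
    7, 1), (3, 10, 7), (1, 10, 3), (10, 3, 1), (10, 7, 3), (10, 1, 7), (10, 3, 7), (10, 1, 3)]

lemma empty11_1 : M 11 1 \ E 11 1 = ∅ :=
  empty_of_cert L11_1 (by decide +kernel) (by decide +kernel)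

/-- For `p = 3, 5, 7, 11` there are levels `k ≠ ±2` that consist of exceptional orbits only: the
set `M_k(F_p)` without its exceptional orbits is empty. -/
theorem result :
    ((0 : ZMod 3) ≠ 2 ∧ (0 : ZMod 3) ≠ -2 ∧ M 3 0 \ E 3 0 = ∅) ∧
    ((0 : ZMod 5) ≠ 2 ∧ (0 : ZMod 5) ≠ -2 ∧ M 5 0 \ E 5 0 = ∅) ∧
    ((1 : ZMod 5) ≠ 2 ∧ (1 : ZMod 5) ≠ -2 ∧ M 5 1 \ E 5 1 = ∅) ∧
    ((4 : ZMod 5) ≠ 2 ∧ (4 : ZMod 5) ≠ -2 ∧ M 5 4 \ E 5 4 = ∅) ∧
    ((0 : ZMod 7) ≠ 2 ∧ (0 : ZMod 7) ≠ -2 ∧ M 7 0 \ E 7 0 = ∅) ∧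
    ((1 : ZMod 7) ≠ 2 ∧ (1 : ZMod 7) ≠ -2 ∧ M 7 1 \ E 7 1 = ∅) ∧
    ((1 : ZMod 11) ≠ 2 ∧ (1 : ZMod 11) ≠ -2 ∧ M 11 1 \ E 11 1 = ∅) :=
  ⟨⟨by decide, by decide, empty3_0⟩, ⟨by decide, by decide, empty5_0⟩,
    ⟨by decide, by decide, empty5_1⟩, ⟨by decide, by decide, empty5_4⟩,
    ⟨by decide, by decide, empty7_0⟩, ⟨by decide, by decide, empty7_1⟩,
    ⟨by decide, by decide, empty11_1⟩⟩

end Pool.Agent.Results.MP_c86b5e_nt.ExhaustedLevels
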